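import Mathlib
import Pool.Agent.Expand.Defs
import Pool.Agent.CubeM.HDefs
import Pool.Agent.CubeM.Local

set_option autoImplicit false

namespace Pool.Agent.Results.MP_c0b923_gt.BarrierTheorem

open Pool.Agent.Expand Pool.Agent.CubeM

/-- Let `H s`, `0 ≤ s ≤ 1`, be an expanding homotopy of maps from the cube `[-1,1]^n` to Euclidean
`n`-space which starts at a centrally symmetric map (`H 0 (-x) + H 0 x` is constant, for instance
`H 0` is the inclusion, or odd). If all the images lie in closed balls of radii `r s < √(n + 3)`,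
then `√n ≤ r s` for all `s`. -/
theorem result (n : ℕ) (H : ℝ → EuclideanSpace ℝ (Fin n) → EuclideanSpace ℝ (Fin n))
    (hH : IsExpandingHomotopyOn H (cube n)) (v : EuclideanSpace ℝ (Fin n))
    (h0 : ∀ x ∈ cube n, H 0 (-x) + H 0 x = v)
    (p : ℝ → EuclideanSpace ℝ (Fin n)) (r : ℝ → ℝ)
    (hr : ∀ s ∈ Set.Icc (0 : ℝ) 1, Set.MapsTo (H s) (cube n) (Metric.closedBall (p s) (r s)))
    (hb : ∀ s ∈ Set.Icc (0 : ℝ) 1, r s < Real.sqrt (n + 3)) :
    ∀ s ∈ Set.Icc (0 : ℝ) 1, Real.sqrt n ≤ r s :=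
  barrierL hH h0 hr hb

end Pool.Agent.Results.MP_c0b923_gt.BarrierTheorem
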