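import Mathlib
import Pool.Agent.Expand.Defs
import Pool.Agent.CubeR.Chord

set_option autoImplicit false

namespace Pool.Agent.Results.MP_c0b923_gt.LiftedChords

open Pool.Agent.Expand

/-- Let `f` be an expanding map from the cube `[-1,1]^n` into the closed ball of centre `p` and
radius `r` of Euclidean `n`-space, and let `o` be a point with `r + |o - p| < √n`. Then some
segment of length at least `2` on a ray starting at `o` lifts to a path of the cube which joins
two opposite faces. -/
theorem result (n : ℕ) (f : EuclideanSpace ℝ (Fin n) → EuclideanSpace ℝ (Fin n))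
    (hf : IsExpandingOn f (cube n)) (p : EuclideanSpace ℝ (Fin n)) (r : ℝ)
    (h : Set.MapsTo f (cube n) (Metric.closedBall p r))
    (o : EuclideanSpace ℝ (Fin n)) (ho : r + dist o p < Real.sqrt n) :
    ∃ (j : Fin n) (u : EuclideanSpace ℝ (Fin n)) (a b : ℝ)
      (γ : ℝ → EuclideanSpace ℝ (Fin n)), ‖u‖ = 1 ∧ 0 ≤ a ∧ a + 2 ≤ b ∧
      LipschitzWith 1 γ ∧ (∀ t, γ t ∈ cube n) ∧ (∀ t ∈ Set.Icc a b, f (γ t) = o + t • u) ∧
      |γ a j| = 1 ∧ γ b j = -γ a j := by
  have h' : Set.MapsTo f (cube n) (Metric.closedBall o (r + dist o p)) := by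
    intro x hx
    have e1 := h hx
    rw [Metric.mem_closedBall] at e1 ⊢
    calc dist (f x) o ≤ dist (f x) p + dist p o := dist_triangle _ _ _
      _ ≤ r + dist o p := by rw [dist_comm p o]; linarith
  obtain ⟨j, u, a, b, γ, h1, h2, h3, -, h5, h6, h7, h8, h9⟩ :=
    Pool.Agent.CubeR.exists_chord f hf o (r + dist o p) h' ho
  exact ⟨j, u, a, b, γ, h1, h2, h3, h5, h6, h7, h8, h9⟩

end Pool.Agent.Results.MP_c0b923_gt.LiftedChords
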