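import Mathlib
import Pool.Agent.Expand.Defs
import Pool.Agent.CubeR.Final

set_option autoImplicit false

namespace Pool.Agent.Results.MP_c0b923_gt.TameCoordinates

open Pool.Agent.Expand Pool.Agent.CubeR

/-- Let `f` be an expanding map from the cube `[-1,1]^n` into the closed ball of centre `p` and
radius `r` of Euclidean `n`-space. If, after a linear isometry `L`, every coordinate `i` is tame
with a constant `0 < k i ≤ 1`, then `∑ (k i)^2 ≤ r^2`. -/
theorem result (n : ℕ) (f : EuclideanSpace ℝ (Fin n) → EuclideanSpace ℝ (Fin n))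
    (hf : IsExpandingOn f (cube n)) (p : EuclideanSpace ℝ (Fin n)) (r : ℝ)
    (h : Set.MapsTo f (cube n) (Metric.closedBall p r))
    (L : EuclideanSpace ℝ (Fin n) ≃ₗᵢ[ℝ] EuclideanSpace ℝ (Fin n)) (k : Fin n → ℝ)
    (hk : ∀ i, 0 < k i ∧ k i ≤ 1) (ht : ∀ i, Tame n (fun x => L (f x)) i (k i)) :
    ∑ i, k i ^ 2 ≤ r ^ 2 :=
  sum_sq_le_of_tame (fun x => L (f x)) (isExpandingOn_comp hf L) (L p) r (mapsTo_comp h L)
    k hk ht

end Pool.Agent.Results.MP_c0b923_gt.TameCoordinates
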