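import Mathlib
import Pool.Agent.Expand.Defs
import Pool.Agent.Expand.Main
import Pool.Agent.CubeE.MainT

set_option autoImplicit false

namespace Pool.Agent.Results.MP_c0b923_gt.TwoOverSin

open Pool.Agent.Expand

/-- Every expanding map from the cube `[-1,1]^n` into a closed ball of radius `r` of Euclidean
`n`-space satisfies `r ≥ √n` if `n ≤ 4` and `r ≥ 2 / sin (π / √n)` if `n ≥ 5`. -/
theorem result (n : ℕ) (f : EuclideanSpace ℝ (Fin n) → EuclideanSpace ℝ (Fin n))
    (hf : IsExpandingOn f (cube n)) (p : EuclideanSpace ℝ (Fin n)) (r : ℝ)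
    (h : Set.MapsTo f (cube n) (Metric.closedBall p r)) :
    (if n ≤ 4 then Real.sqrt n else 2 / Real.sin (Real.pi / Real.sqrt n)) ≤ r := by
  split_ifs with hn
  · have h1 := min_two_sqrt_le f hf p r h
    have h2 : Real.sqrt n ≤ 2 := by
      rw [Real.sqrt_le_left (by norm_num)]
      have : (n : ℝ) ≤ 4 := by exact_mod_cast hn
      linarith
    rwa [min_eq_right h2] at h1
  · exact Pool.Agent.CubeE.two_over_sin_le (by omega) f hf p r h

end Pool.Agent.Results.MP_c0b923_gt.TwoOverSin
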